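import Pool.Agent.Run7.h700.KC.Stm

/-! Pieces DISC and NZ of the project KC (MP_ccab6c_an). -/

set_option autoImplicit false

namespace Pool.Agent.Run7.h648.KC

open Metric Set Pool.Agent.Run7.h700.KC

theorem t_DISC : S_DISC := by
  intro hSP hCH s t hs hst
  obtain ⟨N, hN⟩ := exists_nat_ge (2 * s / ((t - s) / 4))
  have hR : 0 < t - s := by linarith
  refine ⟨(1 / 3) ^ N, by positivity, pow_le_one₀ (by norm_num) (by norm_num), ?_⟩
  intro φ hφ hb a z ha hz
  refine (hCH hSP φ (ball 0 t) (closedBall 0 s) (t - s) hR (convex_closedBall _ _) ?_ hφ hb N a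
    (by simpa using ha) z (by simpa using hz) ?_).1
  · intro a ha w hw
    rw [mem_closedBall, dist_zero_right] at ha
    rw [mem_ball] at hw
    rw [mem_ball, dist_zero_right]
    calc ‖w‖ = ‖(w - a) + a‖ := by rw [sub_add_cancel]
      _ ≤ ‖w - a‖ + ‖a‖ := norm_add_le _ _
      _ < t := by rw [dist_eq_norm] at hw; linarith
  · rw [div_le_iff₀ (by positivity)] at hN
    calc dist z a = ‖z - a‖ := dist_eq_norm _ _
      _ ≤ ‖z‖ + ‖a‖ := norm_sub_le _ _
      _ ≤ 2 * s := by linarith
      _ ≤ _ := hN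

theorem t_NZ : S_NZ := by
  intro r f g hr hr1 hf hg hfg hnz z hz
  rcases lt_or_ge r ‖z‖ with h | h
  · exact hfg z h hz
  have hopen : IsOpen (ball (0 : ℂ) 1 ∩ g ⁻¹' {0}ᶜ) :=
    hg.continuousOn.isOpen_inter_preimage isOpen_ball isOpen_compl_singleton
  have hsub : closedBall (0 : ℂ) r ⊆ ball (0 : ℂ) 1 ∩ g ⁻¹' {0}ᶜ := by
    intro w hw
    rw [mem_closedBall, dist_zero_right] at hw
    exact ⟨by rw [mem_ball, dist_zero_right]; linarith, hnz w hw⟩
  obtain ⟨δ, hδ, hthick⟩ := (isCompact_closedBall (0 : ℂ) r).exists_thickening_subset_open hopen hsub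
  rw [thickening_closedBall hδ hr.le] at hthick
  -- a slightly smaller radius
  have hρ : r < r + δ / 2 := by linarith
  have hin : closedBall (0 : ℂ) (r + δ / 2) ⊆ ball (0 : ℂ) 1 ∩ g ⁻¹' {0}ᶜ := by
    refine Subset.trans ?_ hthick
    exact closedBall_subset_ball (by linarith)
  have hcl : DiffContOnCl ℂ (fun w => f w / g w) (ball (0 : ℂ) (r + δ / 2)) := by
    apply DifferentiableOn.diffContOnCl
    rw [closure_ball _ (by linarith : r + δ / 2 ≠ 0)]
    intro w hw
    have h1 := hin hw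
    exact ((hf w h1.1).div (hg w h1.1) h1.2).mono (fun x hx => (hin hx).1)
  have hmax := Complex.norm_le_of_forall_mem_frontier_norm_le (U := ball (0 : ℂ) (r + δ / 2))
    isBounded_ball hcl (C := 1) (by
      intro w hw
      rw [frontier_ball _ (by linarith : r + δ / 2 ≠ 0), mem_sphere, dist_zero_right] at hw
      have h1 := hin (by rw [mem_closedBall, dist_zero_right, hw] : w ∈ closedBall (0 : ℂ) (r + δ / 2))
      have h2 : ‖w‖ < 1 := by simpa using h1.1
      have h3 : 0 < ‖g w‖ := norm_pos_iff.2 h1.2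
      rw [norm_div, div_le_one h3]
      exact hfg w (by linarith) h2)
    (z := z) (by
      rw [closure_ball _ (by linarith : r + δ / 2 ≠ 0), mem_closedBall, dist_zero_right]
      linarith)
  have h3 : 0 < ‖g z‖ := norm_pos_iff.2 (hnz z h)
  simp only [norm_div] at hmax
  rwa [div_le_one h3] at hmax

end Pool.Agent.Run7.h648.KC
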